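import Pool.Agent.U192.PT.Trans

/-!
# Nonvanishing for a pair is equivalent to nonvanishing for the images of its products

Let `(Y, Δ_Y)` be any log canonical pair over `ℂ`, `dim Y = r + 1 ≥ 1`, and let `X` be a projective
variety of dimension `d`. Let `f i : X ⇢ ℙ^{N i}`, `i < k`, be rational maps such that `X` is mapped
birationally into the product of the projective spaces, and let `H i` be the pull-back of a hyperplane
to a model of `X`. For instance `k = 1` and `X ⊆ ℙ^N`.

Let `V = X × Y ⇢ W` be a dominant rational map of finite degree to any variety `W`, such that the map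
`V ⇢ W × X` is injective on an open subset. The map `V ⇢ W` need not be compatible with the
projections, and it need not be a Galois cover. Let `W_i` be the image of `V` in
`W × ℙ^{N 0} × ... × ℙ^{N (i - 1)}` and let `δ i` be the degree of `W_{i + 1}` over `W_i`. So the product
of all `δ i` is the degree of `V` over `W`, and for `k = 1` the number `δ 0` is this degree.

Let `Δ` be an effective `ℝ`-divisor on `W` (given by its multiplicities `δ P ≥ 0` at all prime
divisors `P` over `W`, for instance `δ P = max (0, - a(P, W, Δ))`) such that over the generic point of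
`X` the product `X × Δ_Y` is at most `f^* Δ` and at least the positive part `Δ_V` of the divisor
`Δ' = f^* Δ - R` on `V`, where `K_V + Δ' = f^* (K_W + Δ)` and `R` is the ramification divisor. If
`Δ_V = X × Δ_Y` over the generic point of `X` then both conditions are satisfied, because
`Δ_V ≤ f^* Δ`; and both are void if `Δ = 0` and `Δ_Y = 0`. Nothing is assumed about `Δ` at the prime
divisors which are not mapped onto `X`.

**Theorem.** Suppose that a multiple of `K_X - 2 ∑ (δ i - 1) H i` is effective: for some `m ≥ 1` there
is an `m`-canonical form on `X` with at least the zeros `2 m ∑ (δ i - 1) H i`. For instance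
`X ⊆ ℙ^{d + 1}` is a smooth hypersurface of degree at least `d + 2 δ 0`. Then

* `K_W + Δ` is pseudo-effective if and only if `K_Y + Δ_Y` is pseudo-effective;
* a multiple of `K_W + Δ` is effective if and only if a multiple of `K_Y + Δ_Y` is effective.

So the nonvanishing conjecture for `(Y, Δ_Y)` is equivalent to the nonvanishing conjecture for each
one of these pairs `(W, Δ)`: `(W, Δ)` is a counterexample if and only if `(Y, Δ_Y)` is one. In
particular, nonvanishing holds for all pairs `(W, Δ)` of this kind, in all dimensions, if the dimension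
of `Y` is at most `3`, whatever `κ(Y)` and `ν(Y)` are. On the other hand, for arbitrary `Y`, the images
of the products `X × Y` with a very positive `X` cannot be simpler than `Y` itself.

Here `K + Δ` is pseudo-effective if for some divisor `A` there are sections of `m (K + Δ) + A` for
infinitely many `m` (Nakayama).

Quasi-projective varieties. Let `Y°` be any quasi-projective variety, `X × Y° → W°` a proper dominant
morphism of finite degree (or only a rational map which is proper over the generic point of `X`), such
that `X × Y° → W° × X` is generically injective. Take `δ P = 1` if `P` has no centre on `W°`, and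
`δ P = 0` otherwise. Then the theorem says that `κ̄(W°) ≥ 0` if and only if `κ̄(Y°) ≥ 0`. (The examples
are not part of the Lean proof.)

Proof. If `α` is a section of `m (K_X - 2 ∑ (δ i - 1) H i) + A` and `β` a section of
`m (K_Y + Δ_Y) + B`, then the norm of `α ⊠ β` from the function field of `V` to the one of `W`,
multiplied by the `m`-th power of the discriminant of a basis of the function field of `V` over
the one of `W`, which consists of monomials in the coordinates of `X` (this is possible by
the injectivity), is a section of `m (deg f) (K_W + Δ) + C`, where the divisor `C` does not depend on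
`m`. Conversely, the pull-backs to `V` of the sections of `m (K_W + Δ) + C` are restricted to the generic
fibre of `V → X`, and the coefficients of the restrictions with respect to a basis of the function
field of `X` over `ℂ` are sections of `m (K_Y + Δ_Y) + B` (this uses the Gauss extensions of the prime
divisors over `Y` to the product).
-/

set_option autoImplicit false
set_option linter.overlappingInstances false

open FF Module Pool.Agent.W602.GT
open Pool.Agent.W619.TW (HasIndep)
open Pool.Agent.Y174 (PairSec PairKod)

namespace Pool.Agent.Results.MP_bc213e_ag.NonvanishingTransfer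

/-- The order of the poles along `P` of the functions in the finite set `Y`: the multiplicity along `P`
of the pull-back of a hyperplane under the rational map with the coordinates `1` and `Y`. -/
noncomputable def poleOrder {U : Type} [Field U] [Algebra ℂ U] (Y : Finset U) (P : Place ℂ U) : ℕ :=
  Y.sup fun z => (-P.ord z).toNat

/-- The functions on `X` as functions on `V = X × Y`. -/
def onV {L : Type} [Field L] [Algebra ℂ L] {U : IntermediateField ℂ L} (Y : Finset U) : Finset L :=
  Y.map (Function.Embedding.subtype fun z => z ∈ U)

/-- The function field of the image `W_j` of `V` in the product of `W` and the first `j` projective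
spaces. `K` and `L` are the function fields of `W` and `V`, and `X i` is the set of the affine
coordinates of the `i`-th rational map. -/
def Img {L : Type} [Field L] [Algebra ℂ L] {U : IntermediateField ℂ L} (K : Type) [Field K]
    [Algebra K L] {k : ℕ} (X : Fin k → Finset U) (j : ℕ) : IntermediateField K L :=
  IntermediateField.adjoin K {z | ∃ i : Fin k, i.val < j ∧ z ∈ onV (X i)}

/-- The degree `δ i` of `W_{i + 1}` over `W_i`. -/
noncomputable def deg {L : Type} [Field L] [Algebra ℂ L] {U : IntermediateField ℂ L} (K : Type)
    [Field K] [Algebra K L] {k : ℕ} (X : Fin k → Finset U) (i : Fin k) : ℕ :=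
  finrank (Img K X i) (IntermediateField.adjoin (Img K X i) (onV (X i) : Set L))

/-- `θ` is a section of `m K_X - H`, where `U` is the function field of the variety `X`, of dimension
`d`, and `H` has the multiplicity `b P` at `P`: the order of the `m`-canonical form `θ` along each prime
divisor `P` over `X` is at least `b P`. -/
def IsSection {U : Type} [Field U] [Algebra ℂ U] (d m : ℕ) (b : Place ℂ U → ℤ)
    (θ : (Fin d → Derivation ℂ U U) → U) : Prop :=
  IsPluri m θ ∧ ∀ P : Place ℂ U, Divisorial d P → ∀ G : Fin d → Derivation ℂ U U,
    (∀ i, DerReg P (G i)) → θ G ≠ 0 → b P ≤ P.ord (θ G)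

/-- `Q` lies over `P` with the ramification index `e`. -/
def LiesOver {K L : Type} [Field K] [Field L] [Algebra ℂ K] [Algebra ℂ L] [Algebra K L]
    (Q : Place ℂ L) (P : Place ℂ K) (e : ℕ) : Prop :=
  0 < e ∧ ∀ f : K, Q.ord (algebraMap K L f) = e * P.ord f

/-- `Δ_V` is the positive part of the divisor `Δ'` with `K_V + Δ' = f^* (K_W + Δ)`. The multiplicity
of `Δ` at a prime divisor `P` over `W` is `δ P`. -/
def IsPullBack {K L : Type} [Field K] [Field L] [Algebra ℂ K] [Algebra ℂ L] [Algebra K L]
    (δ : Place ℂ K → ℝ) (δV : Place ℂ L → ℝ) : Prop :=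
  ∀ (P : Place ℂ K) (Q : Place ℂ L) (e : ℕ), LiesOver Q P e → δV Q = max 0 (1 - e * (1 - δ P))

/-- The divisor `Δ_V` on `V = X × Y`, of dimension `n`, is at most the product `X × Δ_Y` over the
generic point of `X`. `U` and `T` are the function fields of `X` and `Y`. Let `Q` be a prime divisor
over `V` which is mapped onto `X`. If it is mapped onto `Y`, too, then the multiplicity of `Δ_V` is at
most `0`, and if it lies over the prime divisor `P` over `Y` with the ramification index `e` then the
multiplicity is at most the one of the positive part of the pull-back, `max 0 (1 - e (1 - δ_Y P))`. -/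
def IsProductBoundary {L : Type} [Field L] [Algebra ℂ L] (U T : IntermediateField ℂ L) (n : ℕ)
    (δV : Place ℂ L → ℝ) (δY : Place ℂ T → ℝ) : Prop :=
  ∀ Q : Place ℂ L, Divisorial n Q → (∀ z ∈ U, Q.ord z = 0) →
    ((∀ z ∈ T, Q.ord z = 0) → δV Q ≤ 0) ∧
    ∀ (P : Place ℂ T) (e : ℕ), LiesOver Q P e → δV Q ≤ max 0 (1 - e * (1 - δY P))

/-- Over the generic point of `X`, the divisor `f^* Δ` on `V = X × Y`, of dimension `n`, is at least the
product `X × Δ_Y`: if the prime divisor `Q` over `V` is mapped onto `X` and lies over the prime divisors
`P` over `W` and `P'` over `Y`, with the ramification indices `e` and `e'`, then the multiplicity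
`1 - e' (1 - δ_Y P')` of the product boundary is at most the multiplicity `e δ P` of `f^* Δ`. -/
def BoundsProduct {K L : Type} [Field K] [Field L] [Algebra ℂ K] [Algebra ℂ L] [Algebra K L]
    (U T : IntermediateField ℂ L) (n : ℕ) (δ : Place ℂ K → ℝ) (δY : Place ℂ T → ℝ) : Prop :=
  ∀ (P : Place ℂ K) (Q : Place ℂ L) (P' : Place ℂ T) (e e' : ℕ), LiesOver Q P e →
    LiesOver Q P' e' → Divisorial n Q → (∀ z ∈ U, Q.ord z = 0) → 1 - e' * (1 - δY P') ≤ e * δ P

/-- `K + Δ` is pseudo-effective, on the variety of dimension `n` with the function field `K`: for some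
divisor `A`, generated by a finite set `S` of functions, `m (K + Δ) + A` has a nonzero section for
infinitely many `m`. -/
def IsPseff (K : Type) [Field K] [Algebra ℂ K] (n : ℕ) (δ : Place ℂ K → ℝ) : Prop :=
  ∃ S : Finset K, ∀ m0 : ℕ, ∃ m : ℕ, m0 ≤ m ∧ HasIndep ℂ K n 1 (PairSec ℂ K n δ S m 1)

/-- **Transfer of nonvanishing.** Let `L` be the function field of the product
`V` of the varieties `X` and `Y` with the function fields `U` and `T`, of dimensions `d` and `r + 1`: it
is generated by `U` and `T` and has the transcendence degree `d + (r + 1)`. Let `Δ_Y` be a divisor with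
multiplicities `0 ≤ δ_Y P ≤ 1` at the prime divisors over `Y`. Let `U` be generated by the finitely
many coordinates in the sets `X i`. Let `K ⊆ L`
be the function field of a variety `W`, the extension being finite, such that `L` is generated by `K`
and `U` (i.e. the map `V ⇢ W × X` is generically injective). Let `Δ` be an effective divisor on `W`,
whose pull-back `f^* Δ` is at least, and for which the positive part `Δ_V` of `f^* Δ - R` is at most, the
product `X × Δ_Y` over the generic point of `X`. Suppose that there is a nonzero section `θ` of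
`m (K_X - 2 ∑ (δ i - 1) H i)`, `m ≥ 1`. Then `K_W + Δ` is pseudo-effective if and only if `K_Y + Δ_Y`
is pseudo-effective, and `κ(K_W + Δ) ≥ 0` if and only if `κ(K_Y + Δ_Y) ≥ 0`. -/
theorem result {L : Type} [Field L] [Algebra ℂ L] (U T : IntermediateField ℂ L)
    [Algebra.EssFiniteType ℂ U] [Algebra.EssFiniteType ℂ T] {d r m k : ℕ} (hUT : U ⊔ T = ⊤)
    (hU : Algebra.trdeg ℂ U = d) (hT : Algebra.trdeg ℂ T = (r + 1 : ℕ))
    (hL : Algebra.trdeg ℂ L = (d + (r + 1) : ℕ))
    (δY : Place ℂ T → ℝ) (hY0 : ∀ P, 0 ≤ δY P) (hY1 : ∀ P, Divisorial (r + 1) P → δY P ≤ 1)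
    (X : Fin k → Finset U) (hX : IntermediateField.adjoin ℂ (⋃ i, (X i : Set U)) = ⊤)
    (K : Type) [Field K] [Algebra ℂ K] [Algebra K L] [IsScalarTower ℂ K L] [FiniteDimensional K L]
    (hinj : IntermediateField.adjoin K (U : Set L) = ⊤)
    (δ : Place ℂ K → ℝ) (hδ0 : ∀ P, 0 ≤ δ P)
    (δV : Place ℂ L → ℝ) (hδV : IsPullBack δ δV)
    (hle : IsProductBoundary U T (d + (r + 1)) δV δY)
    (hge : BoundsProduct U T (d + (r + 1)) δ δY)
    (hm : 1 ≤ m) (θ : (Fin d → Derivation ℂ U U) → U) (hθ0 : θ ≠ 0)
    (hθ : IsSection d m
      (fun P => ∑ i, 2 * m * ((deg K X i : ℤ) - 1) * poleOrder (X i) P) θ) :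
    (IsPseff K (d + (r + 1)) δ ↔ IsPseff T (r + 1) δY) ∧
    (PairKod ℂ K (d + (r + 1)) δ 0 ↔ PairKod ℂ T (r + 1) δY 0) := by
  have hpsef : ∀ {F : Type} [Field F] [Algebra ℂ F] {n : ℕ} {δ' : Place ℂ F → ℝ},
      IsPseff F n δ' ↔ ¬ U192.PN.PairNeg ℂ F n δ' := by
    intro F _ _ n δ'
    unfold IsPseff U192.PN.PairNeg
    push Not
    rfl
  obtain ⟨h1, h2⟩ := U192.PT.nonvan_transfer (K := K) (U := U) (T := T) hm hUT hU hT hL hinj X hX
    hδ0 hδV hY0 hY1 hle hge (α := θ) ⟨hθ.1, fun P hP G hG => by
      by_cases h0 : θ G = 0
      · exact Or.inl h0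
      · refine Or.inr ⟨1, Finset.mem_singleton_self _, one_ne_zero, ?_⟩
        rw [P.ord_one, add_zero]
        exact hθ.2 P hP G hG h0⟩ hθ0
  exact ⟨by rw [hpsef, hpsef, h1], h2⟩

end Pool.Agent.Results.MP_bc213e_ag.NonvanishingTransfer
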