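import Pool.Agent.U192.PN.Img
import Pool.Agent.TH466.QG.Low

/-!
# Nonvanishing for the pairs dominated by fibre spaces with fibres of numerical dimension zero

Let `(W, Δ)` be a pair (log canonical, or arbitrary with an `ℝ`-Cartier divisor `K_W + Δ`), `V ⇢ W` a
dominant rational map of finite degree, `V` projective, and `g : V → B` a fibre space with the
geometric generic fibre `F` of positive dimension. The map `V ⇢ W` need not be related to the
fibration and need not be a Galois cover. Let `K_V + Δ'` be the pull-back of `K_W + Δ`, i.e.
`Δ' = f^* Δ - R` where `R` is the ramification divisor: if the prime divisor `Q` over `V` lies over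
the prime divisor `P` over `W` with ramification index `e` then `Δ'` has the multiplicity
`1 - e (1 - δ P)` at `Q`, where `δ P` is the multiplicity of `Δ` (`δ P = - a(P, W, Δ)`, or
`δ P = max (0, - a(P, W, Δ))`, at all prime divisors `P` over `W`; both have the same sections). Let
`Δ_V` be the positive part of `Δ'`, and `Δ_F` its restriction to `F`. Suppose that `(F, Δ_F)` has
numerical dimension at most `0` (the growth of `h⁰(m (K_F + Δ_F) + A)` is bounded for every divisor
`A`): for instance log Calabi-Yau pairs, semi-abelian varieties, varieties with `ν(F) = 0`.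

Let `f i : B ⇢ ℙ^{N i}`, `i < k`, be rational maps such that `B` is mapped birationally into the product
of the projective spaces, and let `H i` be the pull-back of a hyperplane to (a model of) `V`. Let `W_i`
be the image of `V` in `W × ℙ^{N 0} × ... × ℙ^{N (i - 1)}` and `δ i` the degree of `W_{i + 1}` over
`W_i`.

**Theorem.** Suppose that there is one nonzero section `θ` of `m (K_V + Δ_V)`, `m ≥ 1`, which at the
prime divisors where `B` is not constant is a section of `m (K_V + f^* Δ - R_g - 2 ∑ (δ i - 1) H i)`,
where `R_g` is the divisor with the multiplicity `c - 1` at the prime divisors over `V` along which all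
functions on `B` have orders divisible by `c` (the multiple fibres of `g`). Then the following are
equivalent:

* `K_W + Δ` is pseudo-effective, in the form `ν(K_W + Δ) ≠ -∞`: there is a divisor `A` such that
  `m (K_W + Δ) + A` has nonzero sections for infinitely many `m`;
* `K_W + Δ` is `ℚ`-effective: `κ(K_W + Δ) ≥ 0`;
* `θ` is a section of `m (K_V + Δ')`, the pull-back of `m (K_W + Δ)`, at the prime divisors over
  `V` which are mapped onto `B`.

If there are `a + 1` such sections with algebraically independent ratios, then `κ(K_W + Δ) ≥ a` is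
equivalent, too. In particular, nonvanishing holds for all log canonical pairs `(X, Δ)` of this kind,
`X` birational to `W`: if `K_X + Δ` is nef, or only pseudo-effective, then it is `ℚ`-effective.
(That nef divisors are pseudo-effective and that pseudo-effective divisors satisfy the first condition,
with a sufficiently ample `A`, is not part of the Lean proof.)

If `B` is a variety with `κ(B) ≥ 0`, `V = B × F` with `κ(F) = 0` and `Δ = 0` then the condition on the
existence of `θ` can only fail by the terms `2 (δ i - 1) H i`, which vanish if `V ⇢ B` factors through `W`.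

Proof. The norm of `γ θ`, where `γ` is a function on `B`, from the function field `L` of `V` to the
function field `K` of `W`, multiplied by a power of the discriminant of a basis of the function field
`M` of the image of `V` in `W × B`, is a section of a multiple of `K_W + Δ`, as soon as `θ` is a section
of `m (K_V + Δ')` at the prime divisors which are mapped onto `B`. If it is not, then the products of
powers of `θ` with powers of the pull-backs of the sections of `m (K_W + Δ) + A` have infinitely many
different orders along such a divisor, so that they are linearly independent over the function field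
of `B`, contrary to `ν(F, Δ_F) ≤ 0`.
-/

set_option autoImplicit false
set_option linter.overlappingInstances false

open FF Module Pool.Agent.W602.GT
open Pool.Agent.W619.TW (HasIndep)
open Pool.Agent.Y174 (PairSec PairKod PairNum)

namespace Pool.Agent.Results.MP_bc213e_ag.NormNonvanishing

/-- The order of the poles along `Q` of the functions in the finite set `Y`: the multiplicity along `Q`
of the pull-back of a hyperplane under the rational map with the coordinates `1` and `Y`. -/
noncomputable def poleOrder {L : Type} [Field L] [Algebra ℂ L] (Y : Finset L) (Q : Place ℂ L) : ℕ :=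
  Y.sup fun z => (-Q.ord z).toNat

/-- The function field of the image `W_j` of `V` in the product of `W` and the first `j` projective
spaces. `K` and `L` are the function fields of `W` and `V`, and `X i` is the set of the affine
coordinates of the `i`-th rational map. -/
def Img {L : Type} [Field L] (K : Type) [Field K] [Algebra K L] {k : ℕ} (X : Fin k → Finset L)
    (j : ℕ) : IntermediateField K L :=
  IntermediateField.adjoin K {z | ∃ i : Fin k, i.val < j ∧ z ∈ X i}

/-- The degree `δ i` of `W_{i + 1}` over `W_i`. -/
noncomputable def deg {L : Type} [Field L] (K : Type) [Field K] [Algebra K L] {k : ℕ}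
    (X : Fin k → Finset L) (i : Fin k) : ℕ :=
  finrank (Img K X i) (IntermediateField.adjoin (Img K X i) (X i : Set L))

/-- `Q` lies over `P` with the ramification index `e`. -/
def LiesOver {K L : Type} [Field K] [Field L] [Algebra ℂ K] [Algebra ℂ L] [Algebra K L]
    (Q : Place ℂ L) (P : Place ℂ K) (e : ℕ) : Prop :=
  0 < e ∧ ∀ f : K, Q.ord (algebraMap K L f) = e * P.ord f

/-- `Δ_V` is the positive part of the divisor `Δ'` with `K_V + Δ' = f^* (K_W + Δ)`. The multiplicity
of `Δ` at a prime divisor `P` over `W` is `δ P`. -/
def IsPullBack {K L : Type} [Field K] [Field L] [Algebra ℂ K] [Algebra ℂ L] [Algebra K L]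
    (δ : Place ℂ K → ℝ) (δV : Place ℂ L → ℝ) : Prop :=
  ∀ (P : Place ℂ K) (Q : Place ℂ L) (e : ℕ), LiesOver Q P e → δV Q = max 0 (1 - e * (1 - δ P))

/-- `Δ_F` is the restriction of `Δ_V` to the geometric generic fibre, with the function field `F` over
`Λ`: if the prime divisor `w` on the fibre lies over `Q`, with the ramification index `e` (which is
`1`), then its multiplicity is `max 0 (1 - e (1 - δ_V Q))`. -/
def IsRestriction {L Λ F : Type} [Field L] [Field Λ] [Field F] [Algebra ℂ L] [Algebra Λ F]
    [Algebra L F] (δV : Place ℂ L → ℝ) (δF : Place Λ F → ℝ) : Prop :=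
  ∀ (Q : Place ℂ L) (w : Place Λ F) (e : ℕ),
    (0 < e ∧ ∀ f : L, w.ord (algebraMap L F f) = e * Q.ord f) → δF w = max 0 (1 - e * (1 - δV Q))

/-- `ν (K_W + Δ) = -∞`, i.e. `K_W + Δ` is not pseudo-effective: for every divisor `A`, generated by
a finite set `S` of functions, `m (K_W + Δ) + A` has no nonzero section for all large `m`. -/
def NotPseff (K : Type) [Field K] [Algebra ℂ K] (n : ℕ) (δ : Place ℂ K → ℝ) : Prop :=
  ∀ S : Finset K, ∃ m0 : ℕ, ∀ m : ℕ, m0 ≤ m → ¬ HasIndep ℂ K n 1 (PairSec ℂ K n δ S m 1)

/-- The `m`-canonical form `θ` on `V` is a section of `m (K_V + Δ_V)`, and at the prime divisors `Q`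
over `V` where the base (with the function field `E`) is not constant it is a section of
`m (K_V + f^* Δ - R_g) - H`, where `H` has the multiplicity `b Q` at `Q`: if `c` divides the orders
along `Q` of all functions on the base and `Q` lies over the prime divisor `P` over `W` with the
ramification index `e` then the order of `θ` is at least `m (c - 1) + b Q - m e δ P`. -/
def IsPositive {K L : Type} [Field K] [Field L] [Algebra ℂ K] [Algebra ℂ L] [Algebra K L]
    (δ : Place ℂ K → ℝ) (δV : Place ℂ L → ℝ) (E : IntermediateField ℂ L) (n m : ℕ)
    (b : Place ℂ L → ℤ) (θ : (Fin n → Derivation ℂ L L) → L) : Prop :=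
  IsPluri m θ ∧
  (∀ Q : Place ℂ L, Divisorial n Q → ∀ G : Fin n → Derivation ℂ L L, (∀ i, DerReg Q (G i)) →
    θ G = 0 ∨ -(m * δV Q) ≤ (Q.ord (θ G) : ℝ)) ∧
  ∀ (P : Place ℂ K) (Q : Place ℂ L) (e : ℕ), LiesOver Q P e → Divisorial n Q →
    (∃ z ∈ E, Q.ord z ≠ 0) → ∀ c : ℕ, (∀ z ∈ E, (c : ℤ) ∣ Q.ord z) →
    ∀ G : Fin n → Derivation ℂ L L, (∀ i, DerReg Q (G i)) → θ G = 0 ∨
      (m : ℝ) * (c - 1) + b Q ≤ Q.ord (θ G) + m * e * δ P

/-- The `m`-canonical form `θ` is a section of the pull-back `m (K_V + Δ')` of `m (K_W + Δ)` along each
prime divisor `Q` over `V` which is mapped onto the base: its order is at least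
`m (e - 1) - m e δ P`, where `e` is the ramification index over `W`. -/
def VanishesOnRamification {K L : Type} [Field K] [Field L] [Algebra ℂ K] [Algebra ℂ L]
    [Algebra K L] (δ : Place ℂ K → ℝ) (E : IntermediateField ℂ L) (n m : ℕ)
    (θ : (Fin n → Derivation ℂ L L) → L) : Prop :=
  ∀ (P : Place ℂ K) (Q : Place ℂ L) (e : ℕ), LiesOver Q P e → Divisorial n Q →
    (∀ z ∈ E, Q.ord z = 0) → ∀ G : Fin n → Derivation ℂ L L, (∀ i, DerReg Q (G i)) →
    θ G = 0 ∨ (m : ℝ) * (e - 1) ≤ Q.ord (θ G) + m * e * δ P

/-- **Nonvanishing.** Let `L` be the function field of a variety `V` of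
dimension `d + (r + 1)` and `E` the one of the base `B` of a fibration of `V`, i.e. `E` is algebraically
closed in `L` and generated by the finitely many coordinates in the sets `X i`, and its transcendence
degree is `d`. Let `Λ` be an algebraic extension of `E` (for instance the algebraic closure), and let
`F` be the function field over `Λ` of the generic fibre. Let `K ⊆ L` be the function field of a variety
`W`, the extension being finite, and `Δ` a divisor with the multiplicity `δ P` at each prime divisor
`P` over `W`. Suppose that the pair `(F, Δ_F)` has numerical dimension at most `0`, and that there are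
forms `θ 0, ..., θ a` (for instance one form, `a = 0`) with algebraically independent ratios, which are
sections of `m (K_V + Δ_V)`, and of `m (K_V + f^* Δ - R_g - 2 ∑ (δ i - 1) H i)` where the base is not
constant. Then `K_W + Δ` is pseudo-effective if and only if `κ(K_W + Δ) ≥ 0`, if and only if
`κ(K_W + Δ) ≥ a`, if and only if `θ 0` is a section of the pull-back of `m (K_W + Δ)` at the prime
divisors which are mapped onto the base. -/
theorem result {L Λ F : Type} [Field L] [Field Λ] [Field F] [Algebra ℂ L]
    [Algebra.EssFiniteType ℂ L] (E : IntermediateField ℂ L) [Algebra E Λ] [Algebra Λ F]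
    [Algebra L F] [IsScalarTower E Λ F] [IsScalarTower E L F] [Algebra ℂ Λ] [Algebra ℂ F]
    [IsScalarTower ℂ Λ F] [IsScalarTower ℂ L F] [IsScalarTower ℂ E Λ]
    [Algebra.IsAlgebraic E Λ] {d r m k a : ℕ} (hE : Algebra.trdeg ℂ E = d)
    (hL : Algebra.trdeg ℂ L = (d + (r + 1) : ℕ)) (hcl : ∀ z : L, IsAlgebraic E z → z ∈ E)
    (hF : IntermediateField.adjoin Λ (Set.range (algebraMap L F)) = ⊤)
    (X : Fin k → Finset L) (hX : IntermediateField.adjoin ℂ (⋃ i, (X i : Set L)) = E)
    (K : Type) [Field K] [Algebra ℂ K] [Algebra K L] [IsScalarTower ℂ K L] [FiniteDimensional K L]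
    (δ : Place ℂ K → ℝ) (δV : Place ℂ L → ℝ) (hδV : IsPullBack δ δV) (δF : Place Λ F → ℝ)
    (hδF : IsRestriction δV δF) (hnum : PairNum Λ F (r + 1) δF 0)
    (hm : 1 ≤ m) (θ : Fin (a + 1) → (Fin (d + (r + 1)) → Derivation ℂ L L) → L)
    (hθ : ∀ j, IsPositive δ δV E (d + (r + 1)) m
      (fun Q => ∑ i, 2 * m * ((deg K X i : ℤ) - 1) * poleOrder (X i) Q) (θ j))
    (D : Fin (d + (r + 1)) → Derivation ℂ L L) (hD : θ 0 D ≠ 0)
    (hind : AlgebraicIndependent ℂ fun j : Fin a => θ j.succ D / θ 0 D) :
    [¬ NotPseff K (d + (r + 1)) δ, PairKod ℂ K (d + (r + 1)) δ 0,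
      PairKod ℂ K (d + (r + 1)) δ a,
      VanishesOnRamification δ E (d + (r + 1)) m (θ 0)].TFAE := by
  have hK : Algebra.EssFiniteType ℂ K := Pool.Agent.TH466.QG.ess_below (K := L)
  exact U192.PN.nonvan (Λ := Λ) (F := F) E hm hE hL hF hcl hδV hδF hnum
    X hX (fun j => (hθ j).1) (fun j => (hθ j).2) hD hind

end Pool.Agent.Results.MP_bc213e_ag.NormNonvanishing
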