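import Pool.Agent.U188.LcProj

/-!
# Nonvanishing and abundance for toroidal log canonical pairs on covers of projective space

**The varieties.** Let `F k`, `k = 0, ..., n`, be forms of degrees `d k` in `n + 1` variables whose
zero sets in the projective `n`-space are smooth hypersurfaces with normal crossings (at every point
the gradients of the forms which vanish there are linearly independent). Let `Y` be a normal abelian
cover of the projective space which is branched only along these hypersurfaces: the function field `K`
of `Y` is generated by the affine coordinates `x (b + 1) / x 0` and by roots `z j`,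
`z j ^ (m j) = ∏ k, (F k (x) / x 0 ^ (d k)) ^ (a j k)`, where `m j` divides `∑ k, a j k * d k`.
(Covers which are branched along fewer hypersurfaces are included: add general hyperplanes, with
`a j k = 0`; for `R = 0` the variety `Y` is the projective space itself.) There is no condition on the
degrees, so `Y` can be rationally connected, Calabi-Yau, of general type or of any intermediate type.

A prime divisor `P` over `Y` (a divisorial place of `K`) has the vector `multiplicities F d x P` of the
multiplicities `v k` of the hypersurfaces along `P`. The vectors `v ≠ 0` of nonnegative integers, not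
all positive, with `m j ∣ ∑ k, a j k * v k` for all `j` are the `Admissible` ones: the nonzero lattice
points of the cone complex of the toroidal variety `Y` (with the boundary `F k = 0`), which is the
boundary of the positive orthant. The toroidal modifications `X` of `Y` are given by the subdivisions
of this complex into rational polyhedral cones; `fan` is the set of the cones, each given by admissible
generators. (It is enough to list cones which cover all admissible vectors.)

**The pairs.** A toroidal pair `(X, Δ)` is given by the function `c`: for admissible `v` the log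
discrepancy of `(X, Δ)` at the toroidal divisor with the multiplicities `v` is `1 - c v`; this is a
piecewise linear function (`K_X + Δ` is `ℚ`-Cartier), and the coefficient of `Δ` at the prime divisor
of `X` which belongs to a primitive generator `s` of a ray is `c s`. The pair is log canonical if
`c s ≤ 1` for all generators of the cones, which is the condition here; it is not assumed that `Δ` is
effective (`c s ≥ 0`), nor that `X` is `ℚ`-factorial. For any prime divisor `P` over `X` the
coefficient of `K_X + Δ`, minus the discrepancy, is at most `c (multiplicities F d x P)` (`c 0 = 0`),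
with equality if `P` is a prime divisor on `X`. So the sections of `m (K_X + Δ)` are the
`m`-canonical forms whose order at every prime divisor `P` over `X` is at least
`- m * c (multiplicities F d x P)`; this is `IsSection`.

**The theorem.** The forms `∏ k, F k ^ (y k - 1) * Ω`, with rational exponents and of degree zero
(`Ω` is the form of degree `n + 1`), are sections of `K_X + Δ` if and only if `y` is in the
`polyhedron`: `∑ k, d k * y k = ∑ k, (d k - 1)` and `∑ k, y k * s k ≥ 1 - c s` for the finitely many
generators `s` of the cones. The divisor `K_X + Δ` is pseudo-effective if and only if it is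
`ℚ`-effective (`κ (X, K_X + Δ) ≥ 0`), if and only if the polyhedron is not empty; in this case
`κ (X, K_X + Δ) = ν (X, K_X + Δ)` is the dimension of the polyhedron. In particular, if `K_X + Δ` is
nef (or only pseudo-effective) then it is `ℚ`-effective, for all these log canonical pairs, of any
dimension; and this remains true after any sequence of steps of a minimal model program, since the
steps do not change the sections of the multiples of `K_X + Δ`, and `K_X' + Δ'` nef implies
that `K_X + Δ` is pseudo-effective.

For `Δ = 0` and smooth models of `Y` this is the theorem of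
`Pool.Agent.Results.MP_97d78d_ag.NormalCrossingCovers`; here the pairs with boundary, and the
varieties `X` themselves, which are in general not canonical, are treated. The proof is in
`Pool/Agent/Q57/TP` and `Pool/Agent/U188`.
-/

set_option autoImplicit false

open FF MvPolynomial Pool.Agent.W602.GT

namespace Pool.Agent.Results.MP_bc213e_ag.NormalCrossingPairs

/-- The hypersurfaces `F k = 0` have normal crossings: at every point of the projective space the
gradients of the forms `F k` which vanish at this point are linearly independent. -/
def NormalCrossings {n : ℕ} (F : Fin (n + 1) → MvPolynomial (Fin (n + 1)) ℂ) : Prop :=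
  ∀ x : Fin (n + 1) → ℂ, x ≠ 0 → LinearIndependent ℂ
    fun (k : {k // eval x (F k) = 0}) (l : Fin (n + 1)) => eval x (pderiv l (F k.1))

section fans

variable {n R : ℕ}

/-- The multiplicities which satisfy the divisibility conditions. -/
def Admissible (m : Fin R → ℕ) (a : Fin R → Fin (n + 1) → ℕ) (v : Fin (n + 1) → ℕ) : Prop :=
  v ≠ 0 ∧ (∃ k, v k = 0) ∧ ∀ j, m j ∣ ∑ k, a j k * v k

/-- The vector `v` is in the cone which is generated by the vectors in `σ`. -/
def InCone (σ : Finset (Fin (n + 1) → ℕ)) (v : Fin (n + 1) → ℕ) : Prop :=
  ∃ w : (Fin (n + 1) → ℕ) → ℚ, (∀ s, 0 ≤ w s) ∧ ∀ k, (v k : ℚ) = ∑ s ∈ σ, w s * s k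

/-- `fan` is a finite set of cones, generated by admissible vectors, which cover all admissible
vectors; the log discrepancy `1 - c v` is a linear function of the admissible vectors `v` of each cone
(`K_X + Δ` is `ℚ`-Cartier), `c 0 = 0`, and `c s ≤ 1` for the generators `s` of the cones (the pair is
log canonical). -/
structure IsLogCanonicalPair (m : Fin R → ℕ) (a : Fin R → Fin (n + 1) → ℕ)
    (fan : Finset (Finset (Fin (n + 1) → ℕ))) (c : (Fin (n + 1) → ℕ) → ℚ) : Prop where
  zero : c 0 = 0
  adm : ∀ σ ∈ fan, ∀ s ∈ σ, Admissible m a s
  cover : ∀ v, Admissible m a v → ∃ σ ∈ fan, InCone σ v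
  linear : ∀ σ ∈ fan, ∃ u : Fin (n + 1) → ℚ, ∀ v, Admissible m a v → InCone σ v →
    1 - c v = ∑ k, u k * v k
  le_one : ∀ σ ∈ fan, ∀ s ∈ σ, c s ≤ 1

/-- The exponents `y` for which the form `∏ k, F k ^ (y k - 1) * Ω` has degree zero and is a section
of `K_X + Δ`: a polyhedron, given by finitely many inequalities. -/
def polyhedron (d : Fin (n + 1) → ℕ) (fan : Finset (Finset (Fin (n + 1) → ℕ)))
    (c : (Fin (n + 1) → ℕ) → ℚ) : Set (Fin (n + 1) → ℚ) :=
  {y | ∑ k, (d k : ℚ) * y k = ∑ k, ((d k : ℚ) - 1) ∧
    ∀ σ ∈ fan, ∀ s ∈ σ, 1 - c s ≤ ∑ k, y k * (s k : ℚ)}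

end fans

section places

variable {n : ℕ} {K : Type} [Field K] [Algebra ℂ K]

/-- The affine coordinates of the projective space. -/
noncomputable def affine (x : Fin (n + 1) → K) (b : Fin n) : K := x b.succ / x 0

/-- The minimal order at `P` of the homogeneous coordinates `x`. -/
noncomputable def minimalOrder (x : Fin (n + 1) → K) (P : Place ℂ K) : ℤ :=
  Finset.univ.inf' Finset.univ_nonempty fun j => P.ord (x j)

/-- The multiplicities of the hypersurfaces `F k = 0` along the prime divisor `P`; the `x j` are the
homogeneous coordinates, which are divided by one of minimal order at `P`. -/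
noncomputable def multiplicities (F : Fin (n + 1) → MvPolynomial (Fin (n + 1)) ℂ)
    (d : Fin (n + 1) → ℕ) (x : Fin (n + 1) → K) (P : Place ℂ K) (k : Fin (n + 1)) : ℕ :=
  (P.ord (aeval x (F k)) - d k * minimalOrder x P).toNat

end places

section sections

variable {K : Type} [Field K] [Algebra ℂ K] (N : ℕ) (δ : Place ℂ K → ℚ)

/-- `ω` is a section of `m (K_X + Δ) + j A`: a rational section of the `m`-th power of the canonical
bundle (`IsPluri`: a function of `N` rational vector fields which is multiplied by `det B ^ m` under
a linear substitution `B`) whose order on the vector fields which are regular at `P` is at least `j`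
times the order of one of the functions in `S`, minus `m` times the coefficient `δ P` of
`K_X + Δ` at `P`, for all prime divisors `P` over `X` (all divisorial places `P` of `K`). Here `A` is
the divisor which is generated by the finite set `S` of functions; `A = 0` if `S = {1}`. -/
def IsSection (S : Finset K) (m j : ℕ) (ω : (Fin N → Derivation ℂ K K) → K) : Prop :=
  IsPluri m ω ∧ ∀ P : Place ℂ K, Divisorial N P → ∀ D : Fin N → Derivation ℂ K K,
    (∀ b, DerReg P (D b)) → ω D = 0 ∨ ∃ s ∈ S, s ≠ 0 ∧
      (j : ℚ) * P.ord s - m * δ P ≤ P.ord (ω D)

/-- `κ (X, K_X + Δ) ≥ h`: for some `m > 0` there are sections of `m (K_X + Δ)` whose ratios contain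
`h` algebraically independent functions. For `h = 0`: there is a nonzero section, that is,
`K_X + Δ` is `ℚ`-effective. -/
def KodairaGe (h : ℕ) : Prop :=
  ∃ m : ℕ, 0 < m ∧ ∃ ω : Fin (h + 1) → (Fin N → Derivation ℂ K K) → K,
    (∀ b, IsSection N δ {1} m 1 (ω b)) ∧
    ∃ D, ω 0 D ≠ 0 ∧ AlgebraicIndependent ℂ (fun b : Fin h => ω b.succ D / ω 0 D)

/-- `ν (X, K_X + Δ) ≤ h`: for every divisor `A` there is a constant `C` such that
`h⁰ (m (K_X + Δ) + A) ≤ C m ^ h` for all `m ≥ 1`. -/
def NumericalLe (h : ℕ) : Prop :=
  ∀ S : Finset K, ∃ C : ℕ, ∀ m M : ℕ, 1 ≤ m →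
    (∃ ω : Fin M → (Fin N → Derivation ℂ K K) → K, LinearIndependent ℂ ω ∧
      ∀ l, IsSection N δ S m 1 (ω l)) → M ≤ C * m ^ h

/-- `K_X + Δ` is pseudo-effective: there is a divisor `A` such that for all `M` a positive multiple of
`M (K_X + Δ) + A` is effective. -/
def Pseudoeffective : Prop :=
  ∃ S : Finset K, ∀ M : ℕ, ∃ j : ℕ, 1 ≤ j ∧ ∃ ω : (Fin N → Derivation ℂ K K) → K, ω ≠ 0 ∧
    IsSection N δ S (j * M) j ω

end sections

/-- **Nonvanishing and abundance.** Let `K` be the function field of an abelian cover `Y` of the
projective `n`-space which is branched along `n + 1` hypersurfaces `F k = 0` with normal crossings,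
`X` the toroidal modification of `Y` which is given by `fan`, and `(X, Δ)` the toroidal log canonical
pair with the log discrepancies `1 - c v`. Then `K_X + Δ` is pseudo-effective if and only if it is
`ℚ`-effective, and if and only if the polyhedron is not empty; in this case
`κ (X, K_X + Δ) = ν (X, K_X + Δ)` is the dimension of the polyhedron. -/
theorem result (n R : ℕ) (hn : 1 ≤ n) (d : Fin (n + 1) → ℕ) (hd : ∀ k, 1 ≤ d k)
    (F : Fin (n + 1) → MvPolynomial (Fin (n + 1)) ℂ) (hF : ∀ k, (F k).IsHomogeneous (d k))
    (hs : NormalCrossings F) (m : Fin R → ℕ) (hm : ∀ j, 1 ≤ m j) (a : Fin R → Fin (n + 1) → ℕ)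
    (hdiv : ∀ j, m j ∣ ∑ k, a j k * d k)
    (K : Type) [Field K] [Algebra ℂ K] (x : Fin (n + 1) → K) (hx0 : x 0 ≠ 0)
    (hbas : IsTranscendenceBasis ℂ (affine x)) (z : Fin R → K)
    (hz : ∀ j, z j ^ m j = ∏ k, (aeval x (F k) / x 0 ^ d k) ^ a j k)
    (hgen : IntermediateField.adjoin ℂ (Set.range (affine x) ∪ Set.range z) = ⊤)
    (fan : Finset (Finset (Fin (n + 1) → ℕ))) (c : (Fin (n + 1) → ℕ) → ℚ)
    (hpair : IsLogCanonicalPair m a fan c)
    (δ : Place ℂ K → ℚ) (hδ : ∀ P, δ P = c (multiplicities F d x P)) :
    (Pseudoeffective n δ ↔ (polyhedron d fan c).Nonempty) ∧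
    (KodairaGe n δ 0 ↔ (polyhedron d fan c).Nonempty) ∧
    ((polyhedron d fan c).Nonempty →
      KodairaGe n δ (Module.finrank ℚ (vectorSpan ℚ (polyhedron d fan c))) ∧
      NumericalLe n δ (Module.finrank ℚ (vectorSpan ℚ (polyhedron d fan c)))) := by
  obtain ⟨e, rfl⟩ : ∃ e, n = e + 1 := ⟨n - 1, by omega⟩
  refine Pool.Agent.U188.LcProj.main hx0 hbas hd hF hs hm hz hdiv hgen (S := fan) hpair.zero
    ⟨hpair.adm, hpair.cover, hpair.linear⟩ hpair.le_one hδ ?_
  unfold polyhedron
  rw [Finset.sum_sub_distrib]
  simp only [Finset.sum_const, Finset.card_univ, Fintype.card_fin, nsmul_eq_mul, mul_one]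

end Pool.Agent.Results.MP_bc213e_ag.NormalCrossingPairs
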