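import Pool.Agent.U976.TBd.E

/-!
# Nonvanishing for pairs on toric bundles over quotients of complex tori

Let `X = V / Γ` be the quotient of a complex torus of any dimension by any finite group; the group may
contain reflections, so that `K_X` may be negative (for instance `X` may be a projective space or any
other rational quotient of an abelian variety). Let `Y → X` be a toric bundle: all fibres are the same
smooth complete toric variety, of any dimension, and the twists `c i` are arbitrary line bundles on
`X` (for instance `Y` is the projective bundle of a direct sum of line bundles). Let `Δ` be an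
effective divisor with rational coefficients on `Y` such that `m (K_Y + Δ)` is integral and Cartier and
such that `(Y, Δ)` is log canonical, or only: all torus invariant prime divisors over the general fibre
of `Y → X` have discrepancy at least `-1`. There is no condition on `Δ` over proper subsets of `X`.
The theorem says that `K_Y + Δ` is `ℚ`-effective if and only if it is pseudo-effective; in particular
this is so if `K_Y + Δ` is nef.

If `V → X` is unramified in codimension one (`K_X` is torsion), `K_Y + Δ` is `ℚ`-effective if and only
if its restriction to the fibres of `Y → X` is.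

The proof. Let `β` be an effective torus invariant divisor on the toric variety in the class of
`k (K_Y + Δ)`. By the condition on the discrepancies a multiple of `m k 1 + β` is a sum of exponents of
the equation of `m Δ` (separation of convex sets), and the product of the corresponding coefficients
shows that the line bundle `k (K_Y + Δ) - ∑ β_i D_i` on `X` is, up to a multiple, of the form
`m (K_X + B)` with an effective divisor `B` (library `Q47.TB`). Hence its Chern form is nonnegative in
the directions which are parallel to all mirrors of `Γ`, and so it is nonnegative if and only if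
finitely many linear inequalities with integral coefficients hold, one for each reflection. If
`K_Y + Δ` is pseudo-effective then a limit of the exponents of the sections is a real solution of the
inequalities; the polytope of the fan is bounded and rational, hence there is a rational solution. By
abundance for pairs on torus quotients it gives a section of a multiple of `K_Y + Δ`.

`IsTorusQuotient` and `LineBundle` are defined in `Pool.Agent.W594.SYZ.Defs2`; `IsChernForm` and
`IsNefForm` in `Pool.Agent.W594.SYZ.TQDefs`; `IsRamification` in `Pool.Agent.TH735.AQ.MirDefs`;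
`IsSmoothFan`, `LinEquiv` and `IsLogPluricanonical` in `Pool.Agent.Q47.TB.Defs`; `ToricLC`,
`QEffective`, `Psef` and `Nef` in `Pool.Agent.U976.TBd.Defs`.
-/

set_option autoImplicit false

namespace Pool.Agent.Results.MP_bc213e_ag.ToricBundles

open Pool.Agent.W594.SYZ2 Pool.Agent.TH735.AQ Q47.TB Pool.Agent.U976.TBd MvPolynomial

/-- Let `Y` be the toric bundle with the fan `u`, `S` and the twists `c i` over the torus quotient
`X = V / Γ`, let `F` define the effective divisor `m Δ` on `Y`, and let
`O_Y(m (K_Y + Δ)) = O_Y(d - m; L)`. Let the torus invariant prime divisors over the general fibre have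
discrepancy at least `-1`.

(1) `K_Y + Δ` is pseudo-effective if and only if it is `ℚ`-effective.
(2) It is `ℚ`-effective if and only if for some `k ≥ 1` there is an effective invariant divisor
`∑ β_i D_i` in the class of `k (d - m)` such that the line bundle `L ^ k ⊗ ∏ c_i ^ (-β_i)` on `X` is
nef.
(3) It is `ℚ`-effective if it is nef (or only nef on the fibres and on the invariant sections).
(4) If `V → X` is unramified in codimension one, it is `ℚ`-effective if and only if its restriction
to the fibres is. -/
theorem result {V : Type*} [NormedAddCommGroup V] [NormedSpace ℂ V] [FiniteDimensional ℂ V]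
    (Γ : Subgroup (V ≃ᵃ[ℂ] V)) (hΓ : IsTorusQuotient Γ) (ρ : V → ℂ) (hρ : IsRamification Γ ρ)
    {ι : Type*} [Fintype ι] {n : ℕ} (u : ι → Fin n → ℤ) (S : Set (Set ι)) (hS : IsSmoothFan u S)
    (c : ι → LineBundle Γ) (Hc : ι → V → V → ℂ) (hc : ∀ i, IsChernForm (c i) (Hc i))
    (m : ℕ) (d : ι → ℤ) (F : V → MvPolynomial ι ℂ) (L : LineBundle Γ) (H : V → V → ℂ)
    (hL : IsChernForm L H) (hF : Q47.TB.IsLogPluricanonical u c m ρ d F L) (hlc : ToricLC S m F) :
    (Psef u c (fun i => d i - m) L ↔ QEffective u c (fun i => d i - m) L) ∧
    (QEffective u c (fun i => d i - m) L ↔ ∃ k : ℕ, 1 ≤ k ∧ ∃ β : ι → ℕ,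
      LinEquiv u (fun i => (β i : ℤ)) (fun i => k * (d i - m)) ∧
        IsNefForm fun v w => (k : ℂ) * H v w - ∑ i, (β i : ℂ) * Hc i v w) ∧
    (Nef u S Hc (fun i => d i - m) H → QEffective u c (fun i => d i - m) L) ∧
    ((∀ v, ρ v ≠ 0) → (QEffective u c (fun i => d i - m) L ↔ ∃ k : ℕ, 1 ≤ k ∧ ∃ β : ι → ℕ,
      LinEquiv u (fun i => (β i : ℤ)) (fun i => k * (d i - m)))) := by
  refine ⟨⟨eff_of_psef hΓ hρ hS hc hL hF hlc, psef_of_eff⟩, ⟨nef_of_eff hΓ hc hL, ?_⟩, ?_, ?_⟩
  · rintro ⟨k, hk, β, hβ, hn⟩
    exact eff_of_nef hΓ hρ hS hc hL hF hlc hk hβ hn
  · intro h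
    obtain ⟨k, hk, β, -, hβ, hn⟩ := h ∅ (Q47.TB.IsSmoothFan.empty_mem hS)
    exact eff_of_nef hΓ hρ hS hc hL hF hlc hk hβ hn
  · intro h0
    constructor
    · intro h
      obtain ⟨k, hk, β, hβ, -⟩ := nef_of_eff hΓ hc hL h
      exact ⟨k, hk, β, hβ⟩
    · rintro ⟨k, hk, β, hβ⟩
      exact eff_of_nef hΓ hρ hS hc hL hF hlc hk hβ (frm_unram hΓ hρ h0 hS hc hL hF hlc hk hβ)

end Pool.Agent.Results.MP_bc213e_ag.ToricBundles
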